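import Pool.Agent.R864.CSH.Stm

/-!
Piece D of MP_5bcb58_co: normal spanning trees.
-/

namespace Pool.Agent.R864.CSH

open Finset

variable {n : ℕ} {G : SimpleGraph (Fin n)} {r : Fin n}

theorem NTree.dep_zero (T : NTree G r) (v : Fin n) (h : T.dep v = 0) : v = r := by
  by_contra hv
  have := T.dep_par v hv
  omega

theorem NTree.anc_root (T : NTree G r) : ∀ (k : ℕ) (v : Fin n), T.dep v = k → T.anc r v := by
  intro k
  induction k with
  | zero =>
    intro v hv
    exact ⟨0, T.dep_zero v hv⟩
  | succ k ih =>
    intro v hv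
    have hvr : v ≠ r := by
      rintro rfl
      rw [T.dep_root] at hv
      omega
    have h1 := T.dep_par v hvr
    obtain ⟨i, hi⟩ := ih (T.par v) (by omega)
    exact ⟨i + 1, by rw [Function.iterate_succ_apply]; exact hi⟩

theorem NTree.exists_dep (T : NTree G r) : ∀ (k : ℕ) (v : Fin n), T.dep v = k →
    ∀ d ≤ k, ∃ w, T.dep w = d := by
  intro k
  induction k with
  | zero =>
    intro v hv d hd
    exact ⟨v, by omega⟩
  | succ k ih =>
    intro v hv d hd
    rcases Nat.lt_or_ge k d with h | h
    · exact ⟨v, by omega⟩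
    have hvr : v ≠ r := by
      rintro rfl
      rw [T.dep_root] at hv
      omega
    have h1 := T.dep_par v hvr
    exact ih (T.par v) (by omega) d h

theorem NTree.dep_lt (T : NTree G r) (v : Fin n) : T.dep v < n := by
  have h1 : Finset.range (T.dep v + 1) ⊆ (univ : Finset (Fin n)).image T.dep := by
    intro d hd
    rw [Finset.mem_range] at hd
    obtain ⟨w, hw⟩ := T.exists_dep _ v rfl d (by omega)
    exact Finset.mem_image.2 ⟨w, mem_univ _, hw⟩
  have h2 := Finset.card_le_card h1
  rw [Finset.card_range] at h2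
  have h3 : ((univ : Finset (Fin n)).image T.dep).card ≤ n := by
    refine Finset.card_image_le.trans ?_
    simp
  omega

theorem exists_ntree (hG : G.Connected) : Nonempty (NTree G r) := by
  have key : ∀ v : Fin n, v ≠ r → ∃ w, G.Adj w v ∧ G.dist v r = G.dist w r + 1 := by
    intro v hv
    obtain ⟨p, hp⟩ := hG.exists_walk_length_eq_dist v r
    cases p with
    | nil => exact absurd rfl hv
    | cons h q =>
      rename_i w
      refine ⟨w, h.symm, ?_⟩
      have h1 : G.dist w r ≤ q.length := SimpleGraph.dist_le q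
      rw [SimpleGraph.Walk.length_cons] at hp
      obtain ⟨q', hq'⟩ := hG.exists_walk_length_eq_dist w r
      have h2 : G.dist v r ≤ (SimpleGraph.Walk.cons h q').length := SimpleGraph.dist_le _
      rw [SimpleGraph.Walk.length_cons] at h2
      omega
  choose! f hf1 hf2 using key
  refine ⟨⟨Function.update f r r, fun v => G.dist v r, ?_, ?_, ?_, ?_⟩⟩
  · simp
  · simp
  · intro v hv
    rw [Function.update_of_ne hv]
    exact hf1 v hv
  · intro v hv
    simp only [Function.update_of_ne hv]
    exact hf2 v hv

theorem NTree.anc_par (T : NTree G r) {y v : Fin n} (h : v ≠ y) :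
    T.anc y v ↔ T.anc y (T.par v) := by
  constructor
  · rintro ⟨i, hi⟩
    cases i with
    | zero => exact absurd hi h
    | succ i => exact ⟨i, by rw [Function.iterate_succ_apply] at hi; exact hi⟩
  · rintro ⟨i, hi⟩
    exact ⟨i + 1, by rw [Function.iterate_succ_apply]; exact hi⟩

theorem NTree.not_anc_root (T : NTree G r) {y : Fin n} (h : y ≠ r) : ¬ T.anc y r := by
  rintro ⟨i, hi⟩
  apply h
  rw [← hi]
  exact Function.iterate_fixed T.par_root i

open Classical in
/-- Re-hanging the subtree of `y` below `x`. -/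
noncomputable def NTree.rehang (T : NTree G r) (x y : Fin n) (hxy : G.Adj x y)
    (h1 : ¬ T.anc x y) (h2 : ¬ T.anc y x) (hd : T.dep y ≤ T.dep x) : NTree G r where
  par := Function.update T.par y x
  dep := fun w => if T.anc y w then T.dep w + (T.dep x + 1 - T.dep y) else T.dep w
  par_root := by
    have hy : y ≠ r := by
      rintro rfl
      exact h2 (T.anc_root _ x rfl)
    rw [Function.update_of_ne (Ne.symm hy)]
    exact T.par_root
  dep_root := by
    have hy : y ≠ r := by
      rintro rfl
      exact h2 (T.anc_root _ x rfl)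
    rw [if_neg (T.not_anc_root hy)]
    exact T.dep_root
  adj := by
    intro v hv
    by_cases h : v = y
    · subst h
      rw [Function.update_self]
      exact hxy
    · rw [Function.update_of_ne h]
      exact T.adj v hv
  dep_par := by
    intro v hv
    by_cases h : v = y
    · subst h
      rw [Function.update_self, if_neg h2, if_pos ⟨0, rfl⟩]
      omega
    · rw [Function.update_of_ne h]
      have h3 := T.dep_par v hv
      by_cases h4 : T.anc y v
      · rw [if_pos h4, if_pos ((T.anc_par h).1 h4)]
        omega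
      · rw [if_neg h4, if_neg (fun h5 => h4 ((T.anc_par h).2 h5))]
        omega

theorem NTree.rehang_sum (T : NTree G r) (x y : Fin n) (hxy : G.Adj x y)
    (h1 : ¬ T.anc x y) (h2 : ¬ T.anc y x) (hd : T.dep y ≤ T.dep x) :
    ∑ v, T.dep v < ∑ v, (T.rehang x y hxy h1 h2 hd).dep v := by
  classical
  have hdep : ∀ w, (T.rehang x y hxy h1 h2 hd).dep w =
      if T.anc y w then T.dep w + (T.dep x + 1 - T.dep y) else T.dep w := by
    intro w
    unfold NTree.rehang
    congr
  apply Finset.sum_lt_sum
  · intro w _
    rw [hdep]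
    split_ifs
    · omega
    · exact le_rfl
  · refine ⟨y, mem_univ _, ?_⟩
    rw [hdep, if_pos ⟨0, rfl⟩]
    omega

theorem cshD : StD := by
  intro n G r hG
  obtain ⟨T0⟩ := exists_ntree (r := r) hG
  have hfin : (Set.range fun T : NTree G r => ∑ v, T.dep v).Finite := by
    apply (Set.finite_Iic (n * n)).subset
    rintro _ ⟨T, rfl⟩
    change ∑ v, T.dep v ≤ n * n
    calc ∑ v, T.dep v ≤ ∑ v : Fin n, n := Finset.sum_le_sum fun v _ => (T.dep_lt v).le
      _ = n * n := by simp
  obtain ⟨s, ⟨T, hT⟩, hmax⟩ := hfin.exists_maximal ⟨_, ⟨T0, rfl⟩⟩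
  refine ⟨T, ?_⟩
  have main : ∀ x y, G.Adj x y → T.dep y ≤ T.dep x → T.anc x y ∨ T.anc y x := by
    intro x y hxy hd
    by_contra hcon
    push Not at hcon
    have h1 := T.rehang_sum x y hxy hcon.1 hcon.2 hd
    have h2 := hmax ⟨T.rehang x y hxy hcon.1 hcon.2 hd, rfl⟩ (by
      rw [← hT]; exact h1.le)
    simp only at hT h2
    omega
  intro x y hxy
  rcases le_total (T.dep y) (T.dep x) with h | h
  · exact main x y hxy h
  · exact (main y x hxy.symm h).symm

end Pool.Agent.R864.CSH
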