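import Pool.Agent.R864.CSH.Stm

/-!
Piece E of MP_5bcb58_co: active vertices inject into the blocks.
-/

namespace Pool.Agent.R864.CSH

open Finset

variable {n : ℕ} {G : SimpleGraph (Fin n)} {r : Fin n}

theorem NTree.anc_dep (T : NTree G r) {a w : Fin n} (h : T.anc a w) (hne : a ≠ w) :
    T.dep a < T.dep w := by
  obtain ⟨i, hi⟩ := h
  induction i generalizing w with
  | zero => exact absurd hi.symm hne
  | succ i ih =>
    by_cases hw : w = r
    · subst hw
      exfalso
      apply hne
      rw [← hi]
      exact Function.iterate_fixed T.par_root (i + 1)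
    have h1 := T.dep_par w hw
    rw [Function.iterate_succ_apply] at hi
    by_cases h2 : a = T.par w
    · subst h2; omega
    · have := ih h2 hi
      omega

theorem card_cc_le_one {V : Type*} [Finite V] (H : SimpleGraph V) (h : H.Preconnected) :
    Nat.card H.ConnectedComponent ≤ 1 := by
  rw [Finite.card_le_one_iff_subsingleton]
  exact h.subsingleton_connectedComponent

theorem edge_no_cut {v w : Fin n} (h : G.Adj v w) (x : Fin n) :
    ¬ IsCutVertex (G.subgraphOfAdj h) x := by
  rintro ⟨hx, hlt⟩
  have h1 : 1 ≤ Nat.card (G.subgraphOfAdj h).coe.ConnectedComponent := by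
    have : Nonempty (G.subgraphOfAdj h).coe.ConnectedComponent :=
      ⟨SimpleGraph.connectedComponentMk _ ⟨x, hx⟩⟩
    exact Nat.card_pos
  have h2 : Nat.card ((G.subgraphOfAdj h).deleteVerts {x}).coe.ConnectedComponent ≤ 1 := by
    apply card_cc_le_one
    have hs : Subsingleton ((G.subgraphOfAdj h).deleteVerts {x}).verts := by
      constructor
      rintro ⟨a, ha⟩ ⟨b, hb⟩
      simp only [SimpleGraph.Subgraph.deleteVerts_verts, SimpleGraph.subgraphOfAdj_verts,
        Set.mem_sdiff, Set.mem_insert_iff, Set.mem_singleton_iff] at ha hb hx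
      apply Subtype.ext
      rcases hx with rfl | rfl <;> rcases ha with ⟨rfl | rfl, ha⟩ <;>
        rcases hb with ⟨rfl | rfl, hb⟩ <;> simp_all
    intro a b
    rw [Subsingleton.elim a b]
  omega

theorem exists_block {v w : Fin n} (h : G.Adj v w) :
    ∃ B : G.Subgraph, IsBlock B ∧ v ∈ B.verts ∧ w ∈ B.verts := by
  obtain ⟨B, hle, hB⟩ := Finite.exists_le_maximal
    (p := fun K : G.Subgraph => K.Connected ∧ ∀ v, ¬ IsCutVertex K v)
    (a := G.subgraphOfAdj h) ⟨SimpleGraph.Subgraph.subgraphOfAdj_connected h, edge_no_cut h⟩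
  refine ⟨B, hB, ?_, ?_⟩
  · apply hle.1; simp
  · apply hle.1; simp

theorem block_sub (T : NTree G r) {v : Fin n} (hv : T.act v) {B : G.Subgraph}
    (hc : B.Connected) (hcut : ∀ v, ¬ IsCutVertex B v) (hvB : v ∈ B.verts)
    (hpB : T.par v ∈ B.verts) {z : Fin n} (hz : z ∈ B.verts) : T.anc v z ∨ z = T.par v := by
  by_cases hzp : z = T.par v
  · exact Or.inr hzp
  left
  have hvp : v ≠ T.par v := by
    intro h
    have := T.dep_par v hv.1
    rw [← h] at this
    omega
  have h1 : Nat.card (B.deleteVerts {T.par v}).coe.ConnectedComponent ≤ 1 := by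
    have h2 : ¬ (Nat.card B.coe.ConnectedComponent <
        Nat.card (B.deleteVerts {T.par v}).coe.ConnectedComponent) :=
      fun h => hcut (T.par v) ⟨hpB, h⟩
    have h3 : Nat.card B.coe.ConnectedComponent ≤ 1 :=
      card_cc_le_one _ hc.coe.preconnected
    omega
  rw [Finite.card_le_one_iff_subsingleton] at h1
  have hv' : v ∈ (B.deleteVerts {T.par v}).verts := ⟨hvB, hvp⟩
  have hz' : z ∈ (B.deleteVerts {T.par v}).verts := ⟨hz, hzp⟩
  have hreach : (B.deleteVerts {T.par v}).coe.Reachable ⟨v, hv'⟩ ⟨z, hz'⟩ :=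
    SimpleGraph.ConnectedComponent.exact (Subsingleton.elim _ _)
  obtain ⟨p⟩ := hreach
  have key : ∀ (a b : (B.deleteVerts {T.par v}).verts)
      (p : (B.deleteVerts {T.par v}).coe.Walk a b), T.anc v a.1 → T.anc v b.1 := by
    intro a b p
    induction p with
    | nil => exact id
    | cons h q ih =>
      rename_i a c b
      intro ha
      apply ih
      by_contra hcon
      have h4 : G.Adj a.1 c.1 := (B.deleteVerts {T.par v}).adj_sub h
      have h5 := hv.2 a.1 c.1 h4 ha hcon
      exact c.2.2 h5
  exact key _ _ p ⟨0, rfl⟩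

theorem cshE : StE := by
  intro n G r T S hS
  have hex : ∀ v, T.act v → ∃ B : G.Subgraph, IsBlock B ∧ T.par v ∈ B.verts ∧ v ∈ B.verts :=
    fun v hv => exists_block (T.adj v hv.1)
  choose! B hB1 hB2 hB3 using hex
  have hcard : S.card ≤ Nat.card {H : G.Subgraph // IsBlock H} := by
    have hSc : Nat.card S = S.card := Nat.card_eq_fintype_card.trans (Fintype.card_coe S)
    rw [← hSc]
    apply Nat.card_le_card_of_injective
      (fun v : S => (⟨B v.1, hB1 v.1 (hS v.1 v.2)⟩ : {H : G.Subgraph // IsBlock H}))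
    rintro ⟨v, hvS⟩ ⟨w, hwS⟩ hvw
    simp only [Subtype.mk.injEq] at hvw
    apply Subtype.ext
    change v = w
    by_contra hne
    have hv := hS v hvS
    have hw := hS w hwS
    have bv := hB1 v hv
    have e1 : w ∈ (B v).verts := by rw [hvw]; exact hB3 w hw
    have e1' : T.par w ∈ (B v).verts := by rw [hvw]; exact hB2 w hw
    have e2 : ∀ z ∈ (B v).verts, T.anc v z ∨ z = T.par v := fun z hz =>
      block_sub T hv bv.prop.1 bv.prop.2 (hB3 v hv) (hB2 v hv) hz
    have e3 : ∀ z ∈ (B v).verts, T.anc w z ∨ z = T.par w := fun z hz =>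
      block_sub T hw bv.prop.1 bv.prop.2 e1 e1' hz
    have dv := T.dep_par v hv.1
    have dw := T.dep_par w hw.1
    rcases e2 w e1 with h | h
    · have d1 := T.anc_dep h hne
      rcases e3 v (hB3 v hv) with h' | h'
      · have d2 := T.anc_dep h' (Ne.symm hne)
        omega
      · rcases e3 (T.par v) (hB2 v hv) with h2 | h2
        · have hne2 : w ≠ T.par v := by
            intro h3; rw [← h3] at dv; omega
          have := T.anc_dep h2 hne2
          omega
        · rw [← h'] at h2
          rw [h2] at dv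
          omega
    · have dvw : T.dep v = T.dep w + 1 := by rw [dv, ← h]
      rcases e2 (T.par w) e1' with h2 | h2
      · by_cases h3 : v = T.par w
        · rw [← h3] at dw
          omega
        · have := T.anc_dep h2 h3
          omega
      · rw [h2, ← h] at dw
        omega
  exact hcard

end Pool.Agent.R864.CSH
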